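import Pool.Agent.Q278.SP6

set_option autoImplicit false

/-! Truncated sums with Pochhammer base `(p^r - 1) / (p^(r+1) - 1)`. -/

namespace Pool.Agent.Results.MP_3ec1f3_nt.Full

open Finset Q278.Loc Q278.Unit Q278.SP

/-- The rising factorial `(a)_k = a (a + 1) ⋯ (a + k - 1)`. -/
def rf (a : ℚ) (k : ℕ) : ℚ := ∏ l ∈ range k, (a + l)

/-- `α_r = (p^r - 1) / (p^(r+1) - 1)` -/
def α (p r : ℕ) : ℚ := ((p : ℚ) ^ r - 1) / ((p : ℚ) ^ (r + 1) - 1)

/-- `N_r = (p^(r+1) - 1) / (p - 1)`, an exact quotient of natural numbers. -/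
def N (p r : ℕ) : ℕ := (p ^ (r + 1) - 1) / (p - 1)

/-- `S_r(p) = ∑_{k<p^r} (2k/α_r + 1) ((α_r)_k / k!)^(2 N_r)` -/
def S (p r : ℕ) : ℚ := ∑ k ∈ range (p ^ r),
  (2 * (k : ℚ) / α p r + 1) * (rf (α p r) k / k.factorial) ^ (2 * N p r)

/-- `S_1(p) = ∑_{k<p} (2(p+1)k + 1) ((1/(p+1))_k / k!)^(2(p+1))` -/
def S1 (p : ℕ) : ℚ := ∑ k ∈ range p,
  (2 * ((p : ℚ) + 1) * k + 1) * (rf (1 / ((p : ℚ) + 1)) k / k.factorial) ^ (2 * (p + 1))

/-- `x ≡ 0 (mod p^m)`: `x = p^m u` with `u` a rational whose denominator is prime to `p`. -/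
def CongZero (p m : ℕ) (x : ℚ) : Prop := ∃ u : ℚ, ¬ p ∣ u.den ∧ x = (p : ℚ) ^ m * u

theorem N_sum {p : ℕ} (hp : 2 ≤ p) (r : ℕ) : N p r = ∑ i ∈ range (r + 1), p ^ i := by
  unfold N
  rw [Nat.geomSum_eq hp]

theorem N_mul {p : ℕ} (hp : 2 ≤ p) (r : ℕ) : (N p r : ℚ) * ((p : ℚ) - 1) = (p : ℚ) ^ (r + 1) - 1 := by
  rw [N_sum hp]
  push_cast
  exact geom_sum_mul (p : ℚ) (r + 1)

theorem main (p : ℕ) (hp : p.Prime) (h3 : 3 < p) (r : ℕ) (hr : 1 ≤ r) :
    CongZero p (2 * r + 5) (S p r) := by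
  have : Fact p.Prime := ⟨hp⟩
  have hodd : p % 2 = 1 := by
    rcases hp.eq_two_or_odd with h | h
    · omega
    · exact h
  have h5 : 5 ≤ p := by omega
  obtain ⟨h, hP⟩ : ∃ h, p = 2 * h + 1 := ⟨p / 2, by omega⟩
  have hp1 : (1 : ℚ) < p := by exact_mod_cast hp.one_lt
  have hNm := N_mul (p := p) (by omega) r
  have hN1 : (N p r : ℚ) - 1 ∈ I (Q278.PI.O p) (p : ℚ) 1 := by
    rw [N_sum (by omega), sum_range_succ']
    refine ⟨∑ i ∈ range r, (p : ℚ) ^ i, (Q278.PI.O p).sum_mem fun i _ =>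
      (Q278.PI.O p).pow_mem Q278.EE.p_mem i, ?_⟩
    push_cast
    rw [mul_sum, pow_zero, add_sub_cancel_right]
    apply sum_congr rfl
    intro i _
    rw [pow_succ]; ring
  have hNpos : (0 : ℚ) < N p r := by
    have : 0 < N p r := by
      rw [N_sum (by omega)]
      exact sum_pos (fun i _ => Nat.pow_pos (by omega)) ⟨0, by simp⟩
    exact_mod_cast this
  obtain ⟨D, ht⟩ := dt hP h5 hr hN1
  have hpr : (1 : ℚ) < (p : ℚ) ^ r := one_lt_pow₀ hp1 (by omega)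
  have hpr1 : (1 : ℚ) < (p : ℚ) ^ (r + 1) := one_lt_pow₀ hp1 (by omega)
  have hα0 : 0 < α p r := div_pos (by linarith) (by linarith)
  have hα : α p r = 1 - 2 * ((p : ℚ) ^ r / (2 * N p r)) := by
    unfold α
    have h1 : (p : ℚ) ^ (r + 1) - 1 ≠ 0 := by linarith
    have h2 : (p : ℚ) - 1 ≠ 0 := by linarith
    rw [div_eq_iff h1, ← hNm]
    field_simp
    rw [pow_succ] at hNm
    linear_combination -hNm
  have U3 : U (Q278.PI.O p) (3 : ℚ) := by
    have h1 : ¬ (p : ℤ) ∣ 3 := by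
      intro h; have := Int.le_of_dvd (by norm_num) h; omega
    exact_mod_cast Q278.EE.U_int h1
  have hM : ((2 * N p r - 1 : ℕ) : ℚ) = 1 + 2 * ((N p r : ℚ) - 1) := by
    have : 1 ≤ 2 * N p r := by
      have : 0 < N p r := by exact_mod_cast hNpos
      omega
    rw [Nat.cast_sub this]
    push_cast; ring
  have key := estimate D U3 hα hα0.ne' hM (fun l => by positivity) ht
  obtain ⟨u, hu, e⟩ := key
  refine ⟨u, hu, ?_⟩
  rw [← e]
  unfold S
  apply sum_congr rfl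
  intro k _
  have e1 : rf (α p r) k / k.factorial = hk (α p r) k := by
    unfold rf hk
    rw [prod_div_distrib]
    congr 1
    rw [← prod_range_add_one_eq_factorial]
    push_cast; rfl
  have e2 : 2 * N p r = 2 * N p r - 1 + 1 := by
    have : 0 < N p r := by exact_mod_cast hNpos
    omega
  rw [e1, ← e2, add_comm]

theorem S_one {p : ℕ} (hp : 1 < p) : S p 1 = S1 p := by
  have h1 : (1 : ℚ) < p := by exact_mod_cast hp
  have e1 : α p 1 = 1 / ((p : ℚ) + 1) := by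
    unfold α
    have h2 : (p : ℚ) ^ (1 + 1) - 1 ≠ 0 := by
      have : (1 : ℚ) < (p : ℚ) ^ (1 + 1) := one_lt_pow₀ h1 (by norm_num)
      linarith
    have h3 : (p : ℚ) + 1 ≠ 0 := by linarith
    rw [div_eq_div_iff h2 h3]
    ring
  have e2 : N p 1 = p + 1 := by
    rw [N_sum (by omega), sum_range_succ, sum_range_one, pow_zero, pow_one, add_comm]
  unfold S S1
  rw [e1, e2, pow_one]
  apply sum_congr rfl
  intro k _
  congr 1
  have h3 : (p : ℚ) + 1 ≠ 0 := by linarith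
  field_simp

/-- Q1: `S_1(p) ≡ 0 (mod p^7)` for every prime `p > 3`. Q2: `S_r(p) ≡ 0 (mod p^(2r+5))` for every
prime `p > 3` and every `r ≥ 1`. -/
theorem result :
    (∀ p : ℕ, p.Prime → 3 < p → CongZero p 7 (S1 p)) ∧
    (∀ p : ℕ, p.Prime → 3 < p → ∀ r : ℕ, 1 ≤ r → CongZero p (2 * r + 5) (S p r)) := by
  refine ⟨fun p hp h3 => ?_, fun p hp h3 r hr => main p hp h3 r hr⟩
  rw [← S_one (by omega)]
  exact main p hp h3 1 le_rfl

end Pool.Agent.Results.MP_3ec1f3_nt.Full
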